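import Pool.Agent.Y675.HO.Fin

/-!
# Andrica's conjecture with a power saving for numbers with one large prime factor

Consecutive elements `n < n'` of the set of the squarefree composite `n` without prime factors
`≤ n^γ` and with a prime factor `> n^(1/2+τ)` satisfy `√n' - √n < n^(-δ)`.  All intervals
`(x, x + y]` with `x^(1/2-δ) ≤ y ≤ x` contain `≫ y / log x` such numbers, almost all of them in
narrow arithmetic progressions.
-/

set_option autoImplicit false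

namespace Pool.Agent.Results.MP_82fd4a_nt.LargePrimeFactor

open Finset Filter

/-- The squarefree numbers `n`, not prime, all of whose prime factors are larger than `n ^ γ` and
one of whose prime factors is larger than `n ^ (1 / 2 + τ)`. -/
def P (τ γ : ℝ) : Set ℕ := {n | Squarefree n ∧ ¬ n.Prime ∧
  (∀ p : ℕ, p.Prime → p ∣ n → (n : ℝ) ^ γ < (p : ℝ)) ∧
  ∃ q : ℕ, q.Prime ∧ q ∣ n ∧ (n : ℝ) ^ (1 / 2 + τ) < (q : ℝ)}

open Classical in
/-- The number of elements of `A` in `(a, b]`. -/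
noncomputable def count (A : Set ℕ) (a b : ℕ) : ℕ := ((Ioc a b).filter (fun m => m ∈ A)).card

/-- The elements of `A` which are not terms of an `l`-term arithmetic progression, with a difference
`d`, `1 ≤ d ≤ D`, all of whose terms belong to `A` and to `(a, b]`. -/
def Outside (A : Set ℕ) (l : ℕ) (D : ℝ) (a b : ℕ) : Set ℕ := {m | m ∈ A ∧
  ¬ ∃ u d : ℕ, 1 ≤ d ∧ (d : ℝ) ≤ D ∧
    (∀ i < l, u + i * d ∈ A ∧ a < u + i * d ∧ u + i * d ≤ b) ∧ ∃ i < l, m = u + i * d}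

/-- **Andrica's conjecture with a power saving for numbers with one large prime factor.** -/
theorem result : ∃ τ γ c δ : ℝ, 0 < τ ∧ 0 < γ ∧ 0 < c ∧ 0 < δ ∧
    (∃ n₀ : ℕ, ∀ n n' : ℕ, n₀ ≤ n → n ∈ P τ γ → n' ∈ P τ γ → n < n' →
      (∀ m : ℕ, n < m → m < n' → m ∉ P τ γ) → Real.sqrt n' - Real.sqrt n < (n : ℝ) ^ (-δ)) ∧
    (∀ᶠ x : ℕ in atTop, ∀ y : ℕ, (x : ℝ) ^ (1 / 2 - δ) ≤ y → y ≤ x →
      c * y / Real.log x ≤ count (P τ γ) x (x + y)) ∧
    (∀ l : ℕ, ∃ B : ℕ, ∀ᶠ x : ℕ in atTop, ∀ y : ℕ, (x : ℝ) ^ (1 / 2 - δ) ≤ y → y ≤ x →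
      ∃ u d : ℕ, 1 ≤ d ∧ (d : ℝ) ≤ Real.log x ^ B ∧
        ∀ i < l, u + i * d ∈ P τ γ ∧ x < u + i * d ∧ u + i * d ≤ x + y) ∧
    (∀ (l : ℕ) (η : ℝ), 2 ≤ l → 0 < η → ∃ B : ℕ, ∀ᶠ x : ℕ in atTop, ∀ y : ℕ,
      (x : ℝ) ^ (1 / 2 - δ) ≤ y → y ≤ x → ∀ A : Set ℕ, A ⊆ P τ γ →
        (count (Outside A l (Real.log x ^ B) x (x + y)) x (x + y) : ℝ) ≤ η * y / Real.log x) := by
  obtain ⟨τ, γ, c, δ, hτ, hγ, hc, hδ, hδ', hlow⟩ := Pool.Agent.Y675.HO.lower
  have hered : ∀ (l : ℕ) (η : ℝ), 2 ≤ l → 0 < η → ∃ B : ℕ, ∀ᶠ x : ℕ in atTop, ∀ y : ℕ,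
      (x : ℝ) ^ (1 / 2 - δ) ≤ y → y ≤ x → ∀ A : Set ℕ, A ⊆ P τ γ →
        (count (Outside A l (Real.log x ^ B) x (x + y)) x (x + y) : ℝ) ≤ η * y / Real.log x :=
    fun l η hl hη => Pool.Agent.Y675.HO.hered τ γ hγ (1 / 2 - δ) (by linarith) l hl η hη
  have hlogpos : ∀ᶠ x : ℕ in atTop, 0 < Real.log x := by
    filter_upwards [eventually_ge_atTop 2] with x hx
    exact Real.log_pos (by exact_mod_cast hx)
  have hypos : ∀ᶠ x : ℕ in atTop, ∀ y : ℕ, (x : ℝ) ^ (1 / 2 - δ) ≤ y → 0 < (y : ℝ) := by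
    filter_upwards [eventually_ge_atTop 1] with x hx y hy
    exact lt_of_lt_of_le (Real.rpow_pos_of_pos (by exact_mod_cast hx) _) hy
  refine ⟨τ, γ, c, δ, hτ, hγ, hc, hδ, ?_, hlow, ?_, hered⟩
  · obtain ⟨n₀, hn₀⟩ := Pool.Agent.Y675.HO.sqrt_gap (P τ γ) δ hδ (by linarith) (by
      filter_upwards [hlow, hlogpos, hypos] with x hx hl hy y hxy hyx
      exact lt_of_lt_of_le (div_pos (mul_pos hc (hy y hxy)) hl) (hx y hxy hyx))
    exact ⟨n₀, fun n n' hn _ _ hnn hm => hn₀ n n' hn hnn hm⟩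
  · intro l
    -- it is enough to consider `l ≥ 2`
    obtain ⟨B, hB⟩ := hered (l + 2) (c / 2) (by omega) (by positivity)
    refine ⟨B, ?_⟩
    filter_upwards [hlow, hlogpos, hypos, hB] with x hx hl hy hBx y hxy hyx
    have h1 : c * y / Real.log x ≤ (count (P τ γ) x (x + y) : ℝ) := hx y hxy hyx
    have h2 := hBx y hxy hyx (P τ γ) subset_rfl
    have h3 : 0 < c * y / Real.log x := div_pos (mul_pos hc (hy y hxy)) hl
    have h4 : c / 2 * y / Real.log x = c * y / Real.log x / 2 := by ring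
    rw [h4] at h2
    have h5 : (count (Outside (P τ γ) (l + 2) (Real.log x ^ B) x (x + y)) x (x + y) : ℝ) <
        count (P τ γ) x (x + y) := by linarith
    have h6 : count (Outside (P τ γ) (l + 2) (Real.log x ^ B) x (x + y)) x (x + y) <
        count (P τ γ) x (x + y) := by exact_mod_cast h5
    classical
    unfold count at h6
    obtain ⟨m, hm1, hm2⟩ := exists_mem_notMem_of_card_lt_card h6
    rw [mem_filter] at hm1 hm2
    have h7 : ¬ m ∈ Outside (P τ γ) (l + 2) (Real.log x ^ B) x (x + y) := fun h => hm2 ⟨hm1.1, h⟩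
    unfold Outside at h7
    rw [Set.mem_ofPred_eq, not_and, not_not] at h7
    obtain ⟨u, d, hd1, hd2, hd3, _⟩ := h7 hm1.2
    exact ⟨u, d, hd1, hd2, fun i hi => hd3 i (by omega)⟩

end Pool.Agent.Results.MP_82fd4a_nt.LargePrimeFactor
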