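import Pool.Agent.Y816.PD.UniJ

set_option autoImplicit false

/-!
# Almost primes `m > x` with `√m - √x < 1` and restricted digits

For every large `x` (for instance a prime) and every admissible `H` the `m` for which all `m + h`, `h ∈ H`, are
integers `> x` whose square root is smaller than `√x + 1`, and whose `i`-th digit in base `b` belongs to an
arbitrary set `A i` for all `i < K`, are considered; `K` is the integer part of `log_b (⌊2 √x⌋ + 1) / 3`.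
-/

namespace Pool.Agent.Results.MP_82fd4a_nt.RestrictedDigits

open Finset Filter
open Pool.Agent.Y816.PD (NA DC AT PT)

/-- The integers `m > x` with `√m - √x < 1`. -/
def Near (x : ℕ) : Set ℕ := {m | x < m ∧ √(m : ℝ) - √(x : ℝ) < 1}

lemma near_one (x m : ℕ) (h1 : x < m) (h2 : m < x + (Nat.sqrt (4 * x) + 1)) : m ∈ Near x := by
  refine ⟨h1, ?_⟩
  have h3 : (Nat.sqrt (4 * x) : ℝ) ≤ 2 * √(x : ℝ) := by
    have h4 : ((Nat.sqrt (4 * x) : ℕ) : ℝ) ^ 2 ≤ (2 * √(x : ℝ)) ^ 2 := by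
      rw [mul_pow, Real.sq_sqrt (Nat.cast_nonneg _)]
      have h5 := Nat.sqrt_le' (4 * x)
      have h6 : ((Nat.sqrt (4 * x) ^ 2 : ℕ) : ℝ) ≤ ((4 * x : ℕ) : ℝ) := Nat.cast_le.2 h5
      push_cast at h6
      linarith
    exact abs_le_of_sq_le_sq' h4 (by positivity) |>.2
  have h4 : (m : ℝ) < (√(x : ℝ) + 1) ^ 2 := by
    have h5 : (m : ℝ) ≤ x + Nat.sqrt (4 * x) := by exact_mod_cast (by omega : m ≤ x + Nat.sqrt (4 * x))
    have h6 := Real.sq_sqrt (Nat.cast_nonneg (α := ℝ) x)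
    nlinarith
  have h5 := (Real.sqrt_lt' (by positivity)).2 h4
  linarith

lemma near_two (x m : ℕ) (h : m ∈ Near x) : x < m ∧ m < x + (Nat.sqrt (4 * x) + 2) := by
  obtain ⟨h1, h2⟩ := h
  refine ⟨h1, ?_⟩
  have h3 : 2 * √(x : ℝ) < Nat.sqrt (4 * x) + 1 := by
    have h5 : 4 * x < (Nat.sqrt (4 * x) + 1) ^ 2 := Nat.lt_succ_sqrt' (4 * x)
    have h6 : ((4 * x : ℕ) : ℝ) < (((Nat.sqrt (4 * x) + 1) ^ 2 : ℕ) : ℝ) := Nat.cast_lt.2 h5
    push_cast at h6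
    have h4 : (2 * √(x : ℝ)) ^ 2 < ((Nat.sqrt (4 * x) : ℝ) + 1) ^ 2 := by
      rw [mul_pow, Real.sq_sqrt (Nat.cast_nonneg _)]
      linarith
    exact lt_of_pow_lt_pow_left₀ 2 (by positivity) h4
  have h4 : (m : ℝ) < (√(x : ℝ) + 1) ^ 2 := (Real.sqrt_lt' (by positivity)).1 (by linarith)
  have h6 := Real.sq_sqrt (Nat.cast_nonneg (α := ℝ) x)
  have h7 : (m : ℝ) < ((x + (Nat.sqrt (4 * x) + 2) : ℕ) : ℝ) := by
    push_cast
    nlinarith
  exact_mod_cast h7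

/-- **Almost prime tuples with restricted digits in all intervals of Andrica's conjecture.** -/
theorem result (H : Finset ℕ) (hH : ∀ p : ℕ, p.Prime → ∃ m : ℕ, ∀ h ∈ H, ¬ p ∣ m + h) (k : ℕ)
    (hk : H.card = k) (hk1 : 1 ≤ k) :
    ∃ c : ℝ, 0 < c ∧ ∃ r₀ : ℕ, 2 ≤ r₀ ∧ ∀ r : ℕ, r₀ ≤ r → ∀ b : ℕ, 2 ≤ b → ∃ κ C : ℝ, 0 < κ ∧ 0 < C ∧
      ∀ᶠ x : ℕ in atTop, ∀ K : ℕ, K = Nat.log b ((Nat.sqrt (4 * x) + 1) / 3) →
        ∀ A : ℕ → Finset ℕ, (∀ i < K, A i ⊆ range b) → (b : ℝ) ^ K ≤ Real.exp (c * K) * NA K A →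
        ((∃ d ∈ A 0, ∀ h ∈ H, (d + h).Coprime b) →
          κ * NA K A / (K : ℝ) ^ k ≤ DC b K A (AT H (Near x) r (b ^ K))) ∧
        (DC b K A (PT H (Near x)) : ℝ) ≤ C * NA K A / (K : ℝ) ^ k := by
  apply Pool.Agent.Y816.PD.uni_fam atTop Near (fun n => n) (fun n => Nat.sqrt (4 * n) + 1)
    (fun n => Nat.sqrt (4 * n) + 2) 2 2 _ _ _ _ _ H hH k hk hk1
  · refine tendsto_atTop.2 fun s => ?_
    filter_upwards [eventually_ge_atTop (s * s)] with n hn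
    have : s ≤ Nat.sqrt (4 * n) := Nat.le_sqrt.2 (by omega)
    omega
  · exact Eventually.of_forall fun n => ⟨by omega, by omega⟩
  · refine Eventually.of_forall fun n => ?_
    have h5 : 4 * n < (Nat.sqrt (4 * n) + 1) ^ 2 := Nat.lt_succ_sqrt' (4 * n)
    show n ≤ (Nat.sqrt (4 * n) + 1) ^ 2
    omega
  · exact Eventually.of_forall fun n m h1 h2 => near_one n m h1 h2
  · exact Eventually.of_forall fun n m h => near_two n m h

end Pool.Agent.Results.MP_82fd4a_nt.RestrictedDigits
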